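import Pool.Agent.H373.PG.AffW
import Pool.Agent.H373.PG.CharP

/-!
# McKay bijections with degrees congruent up to sign modulo `p`: perfect affine groups are enough

For a finite group `G`, a prime `p` and a Sylow `p`-subgroup `P` of `G`, question Q1 asks for a bijection
from `Irr_{p'}(G)` onto `Irr_{p'}(N_G(P))` with degrees congruent up to sign modulo `p`. We prove that for
each prime `p ≥ 5`, each prime `q` (`q = p` allowed) and each function `h` Q1 holds for all finite groups
if and only if it holds for the finite perfect groups `G = V ⋊ K` with `V ≠ 1` elementary abelian of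
exponent `q`, `C_G(V) = V` and `|V| ≥ h(|K|)`. More generally this is so for every class `𝒢` of finite
groups which has certain closure properties. In particular (`q = p`) the finite perfect groups `G` with
`C_G(O_p(G)) ≤ O_p(G)` and `O_{p'}(G) = 1` are enough.

Proof. Let `w` be a multiplicative function on the natural numbers with `w(n) = 0` if and only if `p`
divides `n`, for instance `w(n) = μ(n)²` for a Dirichlet character `μ` modulo `p`, and
`w(G) = ∑ w(χ(1))`, the sum over all irreducible characters of `G`. Q1 for `G` means that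
`w(G) = w(N_G(P))` for all these `w`.

* (Theorem A) Let `π : X → Y` be surjective, `Y` of order prime to `p`, and `V` a finite abelian group of
  order prime to `p` on which `Y` acts faithfully. If `w(G) = w(N_G(P))` holds for the groups
  `V ^ k ⋊ X`, `k ≥ 0`, then it holds for `ker π`. Indeed by Clifford theory both sides are sums over the
  linear characters of `V ^ k`, and for `k → ∞` almost all of them have the stabilizer `ker π`.
* We use induction on `|G : [G, G]|`. If `G` is not perfect, let `f : G → A` be a homomorphism onto a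
  group of prime order `r`, and let `T` be a nontrivial perfect group of order prime to `p`, acting on
  the set `Ω` of the cosets of one of its Sylow subgroups. Suppose first that `r = p`. Let `X` be the
  kernel of the homomorphism `G ≀ T → A`, `(g, t) ↦ ∏ f(g_ω)`. Then `|X : [X, X]| ≤ |G : [G, G]| / r`.
  Theorem A for `X → T` gives the statement for the kernel `B` of `G ^ Ω → A`, `g ↦ ∏ f(g_ω)`. By
  Clifford theory `p w(B) = w(G) ^ |Ω|`, and the same holds for `N_G(P)`. So
  `w(G) ^ |Ω| = w(N_G(P)) ^ |Ω|` for all `Ω`; and the numbers `|Ω|` have no common divisor.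
* If `r ≠ p` let `J` be a cyclic group of order `j ≤ 4` and `X` be the kernel of
  `(G ≀ J) ≀ T → A × J`. Again `|X : [X, X]| ≤ |G : [G, G]| / r`. Theorem A for the homomorphism with
  kernel `B_j ^ Ω`, with `B_j` the kernel of `G ^ j → A`, and the argument above give the statement for
  `B_j`. By Clifford theory `r w(r) w(B_j) = w(r) (x ^ j - a ^ j) + r² a ^ j` for `x = w(G)` and a number
  `a`, and the same holds for `N_G(P)`, with numbers `y` and `b`. So
  `x ^ j + c a ^ j = y ^ j + c b ^ j` for `j = 1, 2, 3, 4` and `c = r² / w(r) - 1`, `|c| ≥ 3`, and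
  `x = y` follows.
* `T` is the alternating group of degree `5` if `p ≥ 7` and a subgroup of `GL(3, 2)` for `p = 5`.
* Let `G` be perfect, `|G| ≥ 3` and let `V` be the kernel of the sum of the coordinates on the regular
  permutation module of `G` over `ℤ/q`. The groups `V ^ n ⋊ G` are perfect and affine, and by Clifford
  theory `w` of such a group and of the normalizer of a Sylow `p`-subgroup are sums over the linear
  characters of `V ^ n` (if `q ≠ p` the linear characters of `C_V(P)` correspond to those of `V` fixed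
  by `P`). The equality for all large `n` gives the equality for `G`, by comparing exponential sums.
-/

set_option autoImplicit false
set_option linter.unusedSectionVars false

noncomputable section

namespace Pool.Agent.Results.MP_5ecade_al.PerfectAffineGroups

/-- `χ` is the character of an irreducible complex representation of `G`. -/
def IsIrr {G : Type} [Group G] (χ : G → ℂ) : Prop :=
  ∃ (V : Type) (_ : AddCommGroup V) (_ : Module ℂ V) (_ : FiniteDimensional ℂ V)
    (ρ : Representation ℂ G V), ρ.IsIrreducible ∧ χ = ρ.character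

/-- The set `Irr_{p'}(G)` of the irreducible characters of `G` of degree prime to `p`. -/
def IrrP (p : ℕ) (G : Type) [Group G] : Type :=
  {χ : G → ℂ // IsIrr χ ∧ ∃ d : ℕ, χ 1 = (d : ℂ) ∧ ¬ p ∣ d}

/-- The normalizer of a Sylow subgroup. -/
abbrev N {p : ℕ} {G : Type} [Group G] (P : Sylow p G) : Subgroup G :=
  Subgroup.normalizer ((P : Subgroup G) : Set G)

/-- The bijection of Q1 for `G` and `P`: from `Irr_{p'}(G)` onto `Irr_{p'}(N_G(P))` with degrees congruent
up to sign modulo `p`. -/
def HasBijection {p : ℕ} {G : Type} [Group G] (P : Sylow p G) : Prop :=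
  ∃ e : IrrP p G ≃ IrrP p (N P), ∀ (χ : IrrP p G) (m n : ℕ), χ.1 1 = (m : ℂ) → (e χ).1 1 = (n : ℂ) →
    (m : ℤ) ≡ n [ZMOD p] ∨ (m : ℤ) ≡ -n [ZMOD p]

/-- Closure properties of a class `𝒢` of groups, `p` a prime and `T` a group. All groups are finite.
* `𝒢` is closed under isomorphisms, normal subgroups and direct products of two groups;
* if `π : G → H` is surjective with kernel in `𝒢`, and `H` is isomorphic to `T` or cyclic of order prime
  to `p`, then `G` is in `𝒢`;
* if `π : G → H` is surjective with an abelian kernel of order prime to `p`, and `H` is in `𝒢`, then `G`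
  is in `𝒢`. -/
structure Closed (p : ℕ) (T : Type) [Group T] (𝒢 : (G : Type) → [Group G] → Prop) : Prop where
  iso : ∀ {G H : Type} [Group G] [Group H] [Finite G], G ≃* H → 𝒢 G → 𝒢 H
  normal : ∀ {G : Type} [Group G] [Finite G] (K : Subgroup G), K.Normal → 𝒢 G → 𝒢 K
  prod : ∀ {G H : Type} [Group G] [Group H] [Finite G] [Finite H], 𝒢 G → 𝒢 H → 𝒢 (G × H)
  up : ∀ {G H : Type} [Group G] [Group H] [Finite G] (π : G →* H), Function.Surjective π →
    (Nonempty (H ≃* T) ∨ (IsCyclic H ∧ ¬ p ∣ Nat.card H)) → 𝒢 π.ker → 𝒢 G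
  down : ∀ {G H : Type} [Group G] [Group H] [Finite G] (π : G →* H), Function.Surjective π →
    (∀ a ∈ π.ker, ∀ b ∈ π.ker, a * b = b * a) → ¬ p ∣ Nat.card π.ker → 𝒢 H → 𝒢 G

/-- `X` has a normal subgroup `V ≠ 1`, abelian of exponent `q`, with `C_X(V) ≤ V` and a complement `K`
such that `h(|K|) ≤ |V|`. -/
def IsAffine (q : ℕ) (h : ℕ → ℕ) (X : Type) [Group X] : Prop :=
  ∃ V K : Subgroup X, V.Normal ∧ IsCompl V K ∧ (∀ a ∈ V, ∀ b ∈ V, a * b = b * a) ∧
    (∀ a ∈ V, a ^ q = 1) ∧ V ≠ ⊥ ∧ Subgroup.centralizer (V : Set X) ≤ V ∧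
    h (Nat.card K) ≤ Nat.card V

/-- If `π : G → H` is surjective with an abelian kernel of exponent `p` and `H` is in `𝒢`, then `G` is in
`𝒢`. -/
def ClosedUnder (p : ℕ) (𝒢 : (G : Type) → [Group G] → Prop) : Prop :=
  ∀ {G H : Type} [Group G] [Group H] [Finite G] (π : G →* H), Function.Surjective π →
    (∀ a ∈ π.ker, ∀ b ∈ π.ker, a * b = b * a) → (∀ a ∈ π.ker, a ^ p = 1) → 𝒢 H → 𝒢 G

/-- `O_p(G)`, the intersection of the Sylow `p`-subgroups. -/
def Op (p : ℕ) (G : Type) [Group G] : Subgroup G := ⨅ P : Sylow p G, (P : Subgroup G)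

section

open Pool.Agent.K3h3.MK Pool.Agent.K3h3.KB

variable {p : ℕ} [hp : Fact p.Prime] {G : Type} [Group G] [Finite G]

theorem deg_iff {χ : G → ℂ} (h : IsIrr χ) {d : ℕ} : χ 1 = (d : ℂ) ↔ d = ndeg χ := by
  constructor
  · intro h1
    exact (ndeg_eq h1.symm).symm
  · rintro rfl
    exact (ndeg_cast h).symm

theorem cong_iff (m n : ℕ) : ((m : ℤ) ≡ n [ZMOD p] ∨ (m : ℤ) ≡ -n [ZMOD p]) ↔
    ((m : ZMod p)) ^ 2 = (n : ZMod p) ^ 2 := by
  rw [sq_eq_sq_iff_eq_or_eq_neg, ← ZMod.intCast_eq_intCast_iff, ← ZMod.intCast_eq_intCast_iff]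
  simp

theorem irrP_iff (χ : G → ℂ) : (IsIrr χ ∧ ∃ d : ℕ, χ 1 = (d : ℂ) ∧ ¬ p ∣ d) ↔
    (IsIrr χ ∧ (ndeg χ : ZMod p) ≠ 0) := by
  constructor
  · rintro ⟨h1, d, h2, h3⟩
    refine ⟨h1, ?_⟩
    rw [deg_iff h1] at h2
    rw [← h2]
    exact fun h => h3 ((ZMod.natCast_eq_zero_iff _ _).mp h)
  · rintro ⟨h1, h2⟩
    exact ⟨h1, ndeg χ, (deg_iff h1).mpr rfl, fun h => h2 ((ZMod.natCast_eq_zero_iff _ _).mpr h)⟩

/-- the two descriptions of `Irr_{p'}(G)` -/
def eqv (p : ℕ) [Fact p.Prime] (G : Type) [Group G] [Finite G] : IrrP p G ≃ X p G :=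
  Equiv.subtypeEquivRight fun χ => irrP_iff χ

theorem kap_eq_iff {H : Type} [Group H] [Finite H] (χ : X p G) (ψ : X p H) :
    kap p ψ = kap p χ ↔ ((ndeg χ.1 : ZMod p)) ^ 2 = (ndeg ψ.1 : ZMod p) ^ 2 := by
  unfold kap
  rw [Units.ext_iff]
  simp only [Units.val_pow_eq_pow_val, Units.val_mk0]
  exact eq_comm

theorem hasBijection_iff (P : Sylow p G) :
    HasBijection P ↔ wt (cl p) G = wt (cl p) (NN P) := by
  constructor
  · rintro ⟨e, he⟩
    refine wt_of_bij p (((eqv p G).symm.trans e).trans (eqv p (NN P))) fun χ => ?_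
    rw [kap_eq_iff]
    have h1 := he ((eqv p G).symm χ) (ndeg χ.1) (ndeg (e ((eqv p G).symm χ)).1)
      ((deg_iff χ.2.1).mpr rfl) ((deg_iff (e ((eqv p G).symm χ)).2.1).mpr rfl)
    rw [cong_iff] at h1
    exact h1
  · intro h
    obtain ⟨e, he⟩ := exists_bij p h
    refine ⟨((eqv p G).trans e).trans (eqv p (NN P)).symm, fun χ m n h1 h2 => ?_⟩
    have h3 := he (eqv p G χ)
    rw [kap_eq_iff] at h3
    rw [deg_iff χ.2.1] at h1
    rw [deg_iff (((eqv p G).trans e).trans (eqv p (NN P)).symm χ).2.1] at h2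
    rw [cong_iff, h1, h2]
    exact h3

end

/-- **Perfect affine groups are enough.** Let `p ≥ 5` be a prime number. Let `q` be a prime number
(`q = p` is allowed) and `h` a function. (1) Q1 holds for the prime `p` and all finite groups if and only
if it holds for the prime `p` and all finite perfect groups `V ⋊ K` as in `IsAffine q h`. (2) The same for
the groups of a class `𝒢` of finite groups with the closure properties `Closed p T 𝒢` for at least one
nontrivial finite perfect group `T` of order prime to `p`, and with the property `ClosedUnder p 𝒢` if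
`q = p`. (3) Q1 holds for the prime `p` and all finite groups if and only if it holds for the prime `p` and
all finite perfect groups `G` with `C_G(O_p(G)) ≤ O_p(G)` without normal subgroups `≠ 1` of order prime
to `p`. -/
theorem result (p : ℕ) [Fact p.Prime] (hp : 5 ≤ p) :
    (∀ q : ℕ, q.Prime → ∀ h : ℕ → ℕ,
      ((∀ (G : Type) [Group G] [Finite G] (P : Sylow p G), HasBijection P) ↔
        ∀ (G : Type) [Group G] [Finite G], commutator G = ⊤ → IsAffine q h G →
          ∀ P : Sylow p G, HasBijection P) ∧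
      ∀ (T : Type) [Group T] [Finite T] [Nontrivial T], commutator T = ⊤ → ¬ p ∣ Nat.card T →
        ∀ 𝒢 : (G : Type) → [Group G] → Prop, Closed p T 𝒢 → (q = p → ClosedUnder p 𝒢) →
          ((∀ (G : Type) [Group G] [Finite G], 𝒢 G → ∀ P : Sylow p G, HasBijection P) ↔
            ∀ (G : Type) [Group G] [Finite G], 𝒢 G → commutator G = ⊤ → IsAffine q h G →
              ∀ P : Sylow p G, HasBijection P)) ∧
    ((∀ (G : Type) [Group G] [Finite G] (P : Sylow p G), HasBijection P) ↔
      ∀ (G : Type) [Group G] [Finite G], commutator G = ⊤ →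
        Subgroup.centralizer (Op p G : Set G) ≤ Op p G →
        (∀ N : Subgroup G, N.Normal → ¬ p ∣ Nat.card N → N = ⊥) →
          ∀ P : Sylow p G, HasBijection P) := by
  have key : ∀ q : ℕ, q.Prime → ∀ h : ℕ → ℕ, ∀ (T : Type) [Group T] [Finite T] [Nontrivial T],
      commutator T = ⊤ → ¬ p ∣ Nat.card T → ∀ 𝒢 : (G : Type) → [Group G] → Prop, Closed p T 𝒢 →
        (q = p → ClosedUnder p 𝒢) →
        ((∀ (G : Type) [Group G] [Finite G], 𝒢 G → ∀ P : Sylow p G, HasBijection P) ↔
          ∀ (G : Type) [Group G] [Finite G], 𝒢 G → commutator G = ⊤ → IsAffine q h G →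
            ∀ P : Sylow p G, HasBijection P) := by
    intro q hq h T _ _ _ hT hTp 𝒢 h𝒢 hcl
    refine ⟨fun h G _ _ hG _ _ P => h G hG P, fun h1 G _ _ hG P => ?_⟩
    rw [hasBijection_iff]
    refine Pool.Agent.H373.PG.reduction_sign_aff hp hq h hT hTp (𝒢 := 𝒢)
      ⟨h𝒢.iso, h𝒢.normal, h𝒢.prod, h𝒢.up, h𝒢.down⟩ ?_
      (fun G _ _ hG hc hA P => (hasBijection_iff P).mp (h1 G hG hc hA P)) G hG P
    intro G H _ _ _ π hπ hab hex hH
    by_cases hqp : q = p
    · subst hqp
      exact hcl rfl π hπ hab hex hH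
    · refine h𝒢.down π hπ hab ?_ hH
      intro hdvd
      obtain ⟨x, hx⟩ := exists_prime_orderOf_dvd_card' p hdvd
      have h2 : x ^ q = 1 := Subtype.ext (hex x.1 x.2)
      have h3 := orderOf_dvd_of_pow_eq_one h2
      rw [hx] at h3
      exact hqp ((Nat.prime_dvd_prime_iff_eq Fact.out hq).mp h3).symm
  have key1 : ∀ q : ℕ, q.Prime → ∀ h : ℕ → ℕ,
      ((∀ (G : Type) [Group G] [Finite G] (P : Sylow p G), HasBijection P) ↔
        ∀ (G : Type) [Group G] [Finite G], commutator G = ⊤ → IsAffine q h G →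
          ∀ P : Sylow p G, HasBijection P) := by
    intro q hq h
    obtain ⟨T, _, h1, h2, h3, h4⟩ := Pool.Agent.H373.PG.exists_T (Fact.out : p.Prime) hp
    have h5 := key q hq h T h3 h4 (fun _ => True)
      ⟨fun _ _ => trivial, fun _ _ _ => trivial, fun _ _ => trivial, fun _ _ _ _ => trivial,
        fun _ _ _ _ _ => trivial⟩ (fun _ _ _ _ _ _ _ _ _ _ _ => trivial)
    simpa using h5
  refine ⟨fun q hq h => ⟨key1 q hq h, key q hq h⟩, fun h1 G _ _ _ _ _ P => h1 G P, fun h1 => ?_⟩
  refine (key1 p Fact.out (fun _ => 0)).mpr fun G _ _ hG hA P => ?_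
  obtain ⟨V, K, hn, -, -, he, -, hc, -⟩ := hA
  have hV : IsPGroup p V := fun v => ⟨1, by
    rw [pow_one]
    exact Subtype.ext (he v.1 v.2)⟩
  obtain ⟨h2, h3⟩ := Pool.Agent.H373.PG.char_p V hn hV hc
  exact h1 G hG h2 h3 P

end Pool.Agent.Results.MP_5ecade_al.PerfectAffineGroups
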